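import Mathlib

set_option autoImplicit false

namespace Pool.Agent.Results.MP_10a600_co.AllTotalDominatingODPU

/-- The open `M`-distance pattern of the vertex `u`: the set of the distances `d(u, v)` with
`v ∈ M`, `v ≠ u`. -/
def openPattern {V : Type*} (G : SimpleGraph V) (M : Set V) (u : V) : Set ℕ :=
  {d | ∃ v ∈ M, v ≠ u ∧ G.dist u v = d}

/-- `M` is an ODPU-set of `G`: `M` is nonempty and all vertices have the same open `M`-distance
pattern. -/
def IsODPU {V : Type*} (G : SimpleGraph V) (M : Set V) : Prop :=
  M.Nonempty ∧ ∀ u v : V, openPattern G M u = openPattern G M v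

/-- `S` is a total dominating set of `G`: every vertex has a neighbour in `S`. -/
def IsTotalDominating {V : Type*} (G : SimpleGraph V) (S : Set V) : Prop :=
  ∀ v : V, ∃ u ∈ S, G.Adj v u

/-- **The finite connected graphs all of whose total dominating sets are ODPU-sets are exactly the
complete graphs.** -/
theorem result {V : Type*} [Finite V] (G : SimpleGraph V) (hG : G.Connected) :
    (∀ S : Set V, IsTotalDominating G S → IsODPU G S) ↔ G = ⊤ := by
  have hne : Nonempty V := hG.nonempty
  constructor
  · intro h
    by_contra hcon
    -- two vertices at distance `diam G ≥ 2`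
    obtain ⟨v, u, hvu⟩ := G.exists_dist_eq_diam
    set r := G.diam with hr
    have htop : G.ediam ≠ ⊤ := SimpleGraph.connected_iff_ediam_ne_top.mp hG
    have hle : ∀ a b, G.dist a b ≤ r := fun a b => G.dist_le_diam htop
    have hr2 : 2 ≤ r := by
      by_contra hr2
      apply hcon
      ext a b
      rw [SimpleGraph.top_adj]
      refine ⟨fun hab => hab.ne, fun hab => ?_⟩
      have h1 := hle a b
      have h0 : G.dist a b ≠ 0 := by
        intro h0
        rw [hG.dist_eq_zero_iff] at h0
        exact hab h0
      exact SimpleGraph.dist_eq_one_iff_adj.mp (by omega)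
    -- the ball of radius `r - 1` around `v` is total dominating
    let S : Set V := {w | G.dist v w ≤ r - 1}
    have hS : IsTotalDominating G S := by
      intro w
      by_cases hwv : w = v
      · subst hwv
        obtain ⟨p, hp⟩ := hG.exists_walk_length_eq_dist w u
        cases p with
        | nil => simp at hvu; omega
        | @cons _ x _ hx _ =>
          refine ⟨x, ?_, hx⟩
          have : G.dist w x = 1 := SimpleGraph.dist_eq_one_iff_adj.mpr hx
          change G.dist w x ≤ r - 1
          omega
      · obtain ⟨p, hp⟩ := hG.exists_walk_length_eq_dist w v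
        cases p with
        | nil => exact absurd rfl hwv
        | @cons _ x _ hx q =>
          refine ⟨x, ?_, hx⟩
          have h1 : G.dist x v ≤ q.length := SimpleGraph.dist_le q
          have h2 := hle w v
          rw [SimpleGraph.Walk.length_cons] at hp
          change G.dist v x ≤ r - 1
          rw [SimpleGraph.dist_comm]
          omega
    obtain ⟨_, hpat⟩ := h S hS
    -- `r` is in the pattern of `u` but not in the pattern of `v`
    have hru : r ∈ openPattern G S u := by
      refine ⟨v, ?_, ?_, ?_⟩
      · change G.dist v v ≤ r - 1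
        simp
      · rintro rfl
        simp at hvu
        omega
      · rw [SimpleGraph.dist_comm]; exact hvu
    rw [hpat u v] at hru
    obtain ⟨w, hw, _, hd⟩ := hru
    have : G.dist v w ≤ r - 1 := hw
    omega
  · rintro rfl S hS
    obtain ⟨v₀⟩ := hne
    obtain ⟨u₀, hu₀, _⟩ := hS v₀
    refine ⟨⟨u₀, hu₀⟩, ?_⟩
    have key : ∀ u, openPattern (⊤ : SimpleGraph V) S u = {1} := by
      intro u
      ext d
      simp only [openPattern, Set.mem_ofPred_eq, Set.mem_singleton_iff]
      constructor
      · rintro ⟨v, _, hvu, rfl⟩
        exact SimpleGraph.dist_eq_one_iff_adj.mpr (by simpa using hvu.symm)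
      · rintro rfl
        obtain ⟨v, hv, huv⟩ := hS u
        exact ⟨v, hv, huv.ne', SimpleGraph.dist_eq_one_iff_adj.mpr huv⟩
    intro u v
    rw [key, key]

end Pool.Agent.Results.MP_10a600_co.AllTotalDominatingODPU
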